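import Mathlib

/-!
# Formulas, semantic derivations, approximate degree, linear systems
-/

namespace Pool.Agent.L5helper55.FL

open Finset

variable {V : Type}

/-- Propositional formulas over the variables `V`. -/
inductive Formula (V : Type) : Type
  | bot : Formula V
  | var : V → Formula V
  | neg : Formula V → Formula V
  | and : Formula V → Formula V → Formula V
  | or : Formula V → Formula V → Formula V
  | imp : Formula V → Formula V → Formula V

/-- Truth value of a formula. -/
def Formula.eval : Formula V → (V → Bool) → Bool
  | .bot, _ => false
  | .var v, x => x v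
  | .neg f, x => !(f.eval x)
  | .and f g, x => f.eval x && g.eval x
  | .or f g, x => f.eval x || g.eval x
  | .imp f g, x => !(f.eval x) || g.eval x

/-- The number of occurrences of variables in a formula. -/
def Formula.leaves : Formula V → ℕ
  | .bot => 0
  | .var _ => 1
  | .neg f => f.leaves
  | .and f g => f.leaves + g.leaves
  | .or f g => f.leaves + g.leaves
  | .imp f g => f.leaves + g.leaves

/-- Lists of Boolean functions (the last line of the derivation first) every member of which is
implied by one of the axioms, or by at most `k` later members of the list. -/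
inductive Derivation (Ax : Set ((V → Bool) → Prop)) (k : ℕ) : List ((V → Bool) → Bool) → Prop
  | nil : Derivation Ax k []
  | ax {f : (V → Bool) → Bool} {l : List ((V → Bool) → Bool)} (a : (V → Bool) → Prop)
      (ha : a ∈ Ax) (hf : ∀ x, a x → f x = true) (hl : Derivation Ax k l) :
      Derivation Ax k (f :: l)
  | rule {f : (V → Bool) → Bool} {l : List ((V → Bool) → Bool)} (P : List ((V → Bool) → Bool))
      (hk : P.length ≤ k) (hP : ∀ g ∈ P, g ∈ l)
      (hf : ∀ x, (∀ g ∈ P, g x = true) → f x = true) (hl : Derivation Ax k l) :
      Derivation Ax k (f :: l)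

/-- A derivation with a line which is identically false. -/
def Refutes (Ax : Set ((V → Bool) → Prop)) (k : ℕ) (l : List ((V → Bool) → Bool)) : Prop :=
  Derivation Ax k l ∧ ∃ f ∈ l, ∀ x, f x = false

/-- The Boolean function `g` has approximate degree at most `D`. -/
def ApproxDeg (D : ℕ) (g : (V → Bool) → Bool) : Prop :=
  ∃ p : MvPolynomial V ℝ, p.totalDegree ≤ D ∧ ∀ x : V → Bool,
    |MvPolynomial.eval (fun v => if x v = true then (1 : ℝ) else 0) p -
      (if g x = true then 1 else 0)| ≤ 1 / 3

/-- `f` is a Boolean function of `s` Boolean functions of approximate degree at most `D`. -/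
def Combination (s D : ℕ) (f : (V → Bool) → Bool) : Prop :=
  ∃ g : Fin s → (V → Bool) → Bool, (∀ j, ApproxDeg D (g j)) ∧
    ∀ x y, (∀ j, g j x = g j y) → f x = f y

/-- The sum mod 2 of the values of the variables in `A`. -/
def par (A : Finset V) (x : V → Bool) : ZMod 2 := ∑ u ∈ A, if x u = true then 1 else 0

/-- The equations of the system `∑_{u ∈ A v} x_u = b_v`. -/
def equations {n : ℕ} (A : Fin n → Finset V) (b : Fin n → ZMod 2) : Set ((V → Bool) → Prop) :=
  Set.range fun v x => par (A v) x = b v

/-- The usual CNF of the system `∑_{u ∈ A v} x_u = b_v`: for every `v` and every assignment `α` of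
the variables in `A v` violating the `v`-th equation, the clause saying that some `u ∈ A v` has a
value different from `α u`, given as the set of its literals. -/
def cnf [DecidableEq V] {n : ℕ} (A : Fin n → Finset V) (b : Fin n → ZMod 2) :
    Set (Finset (V × Bool)) :=
  {K | ∃ v, ∃ α : V → Bool, par (A v) α ≠ b v ∧ K = (A v).image (fun u => (u, !(α u)))}

/-- The clauses in the set `F`, as properties of assignments. -/
def clauses (F : Set (Finset (V × Bool))) : Set ((V → Bool) → Prop) :=
  {a | ∃ K ∈ F, a = fun x => ∃ l ∈ K, x l.1 = l.2}

end Pool.Agent.L5helper55.FL
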