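import Pool.Agent.L5helper55.FL.Restr
import Pool.Agent.L5helper55.FL.Defs

/-!
# Lower bound for the number of lines
-/

namespace Pool.Agent.L5helper55.FL

open Finset Pool.Agent.Helper600R2 Pool.Agent.H564R2.QF

/-- the variables -/
abbrev Vr (n m : ℕ) : Type := (Fin n × Bool) × Fin m

/-- the variables of the `v`-th equation -/
def eqSet {n : ℕ} (m : ℕ) (π : Equiv.Perm (Fin n)) (v : Fin n) : Finset (Vr n m) :=
  univ.filter (fun u => dd (ghd π) gtl (Pi.single v (1 : ZMod 2)) u.1 ≠ 0)

lemma lowDeg_le_J {V : Type} (D : ℕ) : LowDeg V D ≤ J (ι := V) (α := Bool) ℝ D := by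
  unfold LowDeg
  rw [Submodule.span_le]
  rintro f ⟨S, hS, rfl⟩
  refine junta_mem S hS ?_
  intro x y hxy
  unfold Pool.Agent.H564R2.QF.chi
  refine Finset.prod_congr rfl (fun v hv => ?_)
  rw [hxy v hv]

lemma getE {α : Type} (l : List α) {i j : ℕ} (h : i = j) (hi : i < l.length) (hj : j < l.length) :
    l[i] = l[j] := by
  subst h; rfl

lemma zmod2_ne {c : ZMod 2} (h : c ≠ 0) : c = 1 := by
  revert c; decide

/-- the embedding of the cubes -/
def dn {n m : ℕ} (x : (Fin n × Bool) × Fin 1 × Fin m → Bool) : Vr n m → Bool :=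
  fun u => x (u.1, 0, u.2)

lemma LC_iff {n m : ℕ} (π : Equiv.Perm (Fin n)) (b : Fin n → ZMod 2) (v : Fin n)
    (x : (Fin n × Bool) × Fin 1 × Fin m → Bool) :
    LC (q := 2) π b v x ↔ par (eqSet m π v) (dn x) = b v := by
  have h : flow (ghd π) gtl v (zsum 2 x) = par (eqSet m π v) (dn x) := by
    have h1 : par (eqSet m π v) (dn x) = ∑ e : Fin n × Bool, ∑ j : Fin m,
        if dd (ghd π) gtl (Pi.single v (1 : ZMod 2)) e ≠ 0 then
          (if x (e, 0, j) = true then (1 : ZMod 2) else 0) else 0 := by
      simp only [par, eqSet, dn]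
      rw [Finset.sum_filter, Fintype.sum_prod_type]
      rfl
    rw [h1]
    simp only [flow, zsum]
    refine Finset.sum_congr rfl (fun e _ => ?_)
    rw [Fin.sum_univ_one, Finset.mul_sum]
    refine Finset.sum_congr rfl (fun j _ => ?_)
    by_cases hc : dd (ghd π) gtl (Pi.single v (1 : ZMod 2)) e = 0
    · rw [hc]; simp
    · rw [zmod2_ne hc]; simp
  unfold LC
  rw [h]

lemma exists_prim : ∃ ψ : AddChar (ZMod 2) ℝ, ψ.IsPrimitive := by
  have h : IsPrimitiveRoot (-1 : ℝ) 2 := IsPrimitiveRoot.neg_one 0 (by norm_num)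
  exact ⟨AddChar.zmodChar 2 h.pow_eq_one, AddChar.zmodChar_primitive_of_primitive_root 2 h⟩

theorem core {n m w k L : ℕ} (hn : 4 ≤ n) (π : Equiv.Perm (Fin n))
    (hπ : ∀ U : Finset (Fin n), n ≤ 3 * U.card → 3 * U.card ≤ 2 * n →
      n / 60 < (bd (finRotate n) U).card ∨ n / 60 < (bd π U).card)
    (b : Fin n → ZMod 2) (hw : 2 * ((k + 1) * w + 4) ≤ n / 60)
    (f : Fin L → (Vr n m → Bool) → Bool)
    (hf : Sound (fun v x => par (eqSet m π v) x = b v) k f)
    (s : Fin n × Bool → Fin m) (x : Vr n m → Bool)
    (hdeg : ∀ i, (fun y : Fin n × Bool → Bool =>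
      if f i (Sharp.rs s x y) = true then (1 : ℝ) else 0) ∈ LowDeg (Fin n × Bool) w)
    (i : Fin L) : ∃ x, f i x = true := by
  classical
  obtain ⟨ψ, hψ⟩ := exists_prim
  let ρ : (Fin n × Bool) × Fin 1 × Fin m → Bool × Bool := fun p =>
    (decide (p.2.2 = s p.1), x (p.1, p.2.2))
  have hmerge : ∀ y : (Fin n × Bool) × Fin 1 × Fin m → Bool,
      dn (merge ρ y) = Sharp.rs s x (fun a => y (a, 0, s a)) := by
    intro y
    funext u
    obtain ⟨a, j⟩ := u
    simp only [dn, merge, ρ, Sharp.rs]
    by_cases h : j = s a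
    · subst h; simp
    · simp [h]
  have hf' : Sound (LC (q := 2) π b) k (fun i z => f i (dn z)) := by
    intro i
    rcases hf i with ⟨v, hv⟩ | ⟨P, hPk, hPlt, hP⟩
    · exact Or.inl ⟨v, fun z hz => hv _ ((LC_iff π b v z).mp hz)⟩
    · exact Or.inr ⟨P, hPk, hPlt, fun z hz => hP _ hz⟩
  obtain ⟨z, hz⟩ := lifted_no_low_degree (r := 1) (m := m) π ψ hψ (by norm_num) rfl hn hπ b w k hw
    (fun i z => f i (dn z)) hf' ρ (fun e t => ⟨s e, by simp [ρ]⟩) (by
      intro i
      have h1 := lowDeg_le_J w (hdeg i)
      have h2 := J_comp h1 (fun y : (Fin n × Bool) × Fin 1 × Fin m → Bool =>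
        fun a => y (a, 0, s a)) (fun a => (a, 0, s a)) (by
          intro a y y' h
          exact h)
      convert h2 using 1
      funext y
      simp only [toK, hmerge]) i
  exact ⟨_, hz⟩

lemma Derivation.idx {V : Type} {Ax : Set ((V → Bool) → Prop)} {k : ℕ}
    {l : List ((V → Bool) → Bool)} (h : Derivation Ax k l) :
    ∀ i (hi : i < l.length), (∃ a ∈ Ax, ∀ x, a x → l[i] x = true) ∨
      ∃ P : Finset ℕ, P.card ≤ k ∧ (∀ j ∈ P, i < j ∧ j < l.length) ∧
        ∀ x, (∀ j ∈ P, ∀ hj : j < l.length, l[j] x = true) → l[i] x = true := by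
  classical
  induction h with
  | nil => intro i hi; exact absurd hi (by simp)
  | @ax f l a ha hf hl ih =>
    intro i hi
    rcases i with _ | i
    · exact Or.inl ⟨a, ha, hf⟩
    · rcases ih i (by simpa using hi) with h | ⟨P, h1, h2, h3⟩
      · exact Or.inl (by simpa using h)
      · refine Or.inr ⟨P.image Nat.succ, card_image_le.trans h1, ?_, ?_⟩
        · intro j hj
          obtain ⟨j', hj', rfl⟩ := Finset.mem_image.mp hj
          have := h2 j' hj'
          simp only [List.length_cons]
          omega
        · intro x hx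
          have := h3 x (fun j hj hjl => by
            have := hx (j + 1) (Finset.mem_image.mpr ⟨j, hj, rfl⟩) (by simpa using hjl)
            simpa using this)
          simpa using this
  | @rule f l P hk hP hf hl ih =>
    intro i hi
    rcases i with _ | i
    · right
      have hex : ∀ g ∈ P, ∃ j, ∃ hj : j < l.length, l[j] = g := by
        intro g hg
        obtain ⟨j, hj, h⟩ := List.getElem_of_mem (hP g hg)
        exact ⟨j, hj, h⟩
      choose! c hc using hex
      refine ⟨P.toFinset.image (fun g => c g + 1), ?_, ?_, ?_⟩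
      · exact card_image_le.trans ((List.toFinset_card_le P).trans hk)
      · intro j hj
        obtain ⟨g, hg, rfl⟩ := Finset.mem_image.mp hj
        obtain ⟨h1, -⟩ := hc g (List.mem_toFinset.mp hg)
        simp only [List.length_cons]
        omega
      · intro x hx
        apply hf
        intro g hg
        obtain ⟨h1, h2⟩ := hc g hg
        have := hx (c g + 1) (Finset.mem_image.mpr ⟨g, List.mem_toFinset.mpr hg, rfl⟩)
          (by simpa using h1)
        rw [← h2]
        simpa using this
    · rcases ih i (by simpa using hi) with h | ⟨P, h1, h2, h3⟩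
      · exact Or.inl (by simpa using h)
      · refine Or.inr ⟨P.image Nat.succ, card_image_le.trans h1, ?_, ?_⟩
        · intro j hj
          obtain ⟨j', hj', rfl⟩ := Finset.mem_image.mp hj
          have := h2 j' hj'
          simp only [List.length_cons]
          omega
        · intro x hx
          have := h3 x (fun j hj hjl => by
            have := hx (j + 1) (Finset.mem_image.mpr ⟨j, hj, rfl⟩) (by simpa using hjl)
            simpa using this)
          simpa using this

/-- derivations are sound sequences -/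
lemma Derivation.sound {V ι : Type} {C : ι → (V → Bool) → Prop} {k : ℕ}
    {l : List ((V → Bool) → Bool)} (h : Derivation (Set.range C) k l) :
    Sound C k (fun i : Fin l.length => l[l.length - 1 - i.val]'(by omega)) := by
  classical
  intro i
  have hi := i.isLt
  rcases h.idx (l.length - 1 - i.val) (by omega) with ⟨a, ⟨v, rfl⟩, ha⟩ | ⟨P, h1, h2, h3⟩
  · exact Or.inl ⟨v, ha⟩
  · right
    refine ⟨univ.filter (fun j : Fin l.length => l.length - 1 - j.val ∈ P), ?_, ?_, ?_⟩
    · refine le_trans ?_ h1
      refine card_le_card_of_injOn (fun j => l.length - 1 - j.val) ?_ ?_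
      · intro j hj
        simpa using hj
      · intro j _ j' _ hjj
        apply Fin.ext
        have := j.isLt
        have := j'.isLt
        simp only at hjj
        omega
    · intro j hj
      simp only [mem_filter, mem_univ, true_and] at hj
      have := h2 _ hj
      have := j.isLt
      rw [Fin.lt_def]
      omega
    · intro x hx
      apply h3
      intro j hj hjl
      have h5 := hx ⟨l.length - 1 - j, by omega⟩ (by
        simp only [mem_filter, mem_univ, true_and]
        have e : l.length - 1 - (l.length - 1 - j) = j := by omega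
        rwa [e])
      have e : l.length - 1 - (l.length - 1 - j) = j := by omega
      rw [← h5]
      exact congrFun (getE l e.symm hjl (by omega)) x

/-- If all lines have good approximations then there are many. -/
theorem many_lines {n m w k : ℕ} (hn : 4 ≤ n) (hm : 1 ≤ m) (π : Equiv.Perm (Fin n))
    (hπ : ∀ U : Finset (Fin n), n ≤ 3 * U.card → 3 * U.card ≤ 2 * n →
      n / 60 < (bd (finRotate n) U).card ∨ n / 60 < (bd π U).card)
    (b : Fin n → ZMod 2) (hw : 2 * ((k + 1) * w + 4) ≤ n / 60)
    (l : List ((Vr n m → Bool) → Bool))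
    (hl : Derivation (Set.range (fun v x => par (eqSet m π v) x = b v)) k l)
    (h0 : ∃ f ∈ l, ∀ x, f x = false)
    (happ : ∀ f ∈ l, ∀ j, w < j → ∃ D : ℕ, 191 * D ≤ m * j ∧
      ∃ P ∈ LowDeg (Vr n m) D, ∀ z, |P z - (if f z = true then 1 else 0)| ≤ (1 / 4) ^ j) :
    2 ^ w ≤ l.length := by
  classical
  by_contra hcon
  push Not at hcon
  obtain ⟨s, x, hsx⟩ := restr_gen m w l.length hm
    (fun i : Fin l.length => l[l.length - 1 - i.val]'(by omega))
    (fun i j hj => happ _ (List.getElem_mem _) j hj) (by exact_mod_cast hcon)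
  obtain ⟨f, hf, hf0⟩ := h0
  obtain ⟨i, hi, rfl⟩ := List.getElem_of_mem hf
  obtain ⟨y, hy⟩ := core hn π hπ b hw _ hl.sound s x hsx ⟨l.length - 1 - i, by omega⟩
  have e : l.length - 1 - (l.length - 1 - i) = i := by omega
  have hy2 : l[i] y = true := by
    rw [← hy]
    exact congrFun (getE l e.symm hi (by omega)) y
  rw [hf0] at hy2
  exact absurd hy2 (by simp)

/-- evaluations of polynomials of degree at most `D` -/
lemma mv_lowDeg {V : Type} {D : ℕ} (p : MvPolynomial V ℝ) (hp : p.totalDegree ≤ D) :
    (fun x : V → Bool => MvPolynomial.eval (fun v => if x v = true then (1 : ℝ) else 0) p) ∈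
      LowDeg V D := by
  classical
  have h : (fun x : V → Bool => MvPolynomial.eval (fun v => if x v = true then (1 : ℝ) else 0) p) =
      ∑ s ∈ p.support, p.coeff s • ∏ i ∈ s.support,
        (fun x : V → Bool => if x i = true then (1 : ℝ) else 0) := by
    funext x
    rw [MvPolynomial.eval_eq, Finset.sum_apply]
    refine Finset.sum_congr rfl (fun s _ => ?_)
    rw [Pi.smul_apply, smul_eq_mul, Finset.prod_apply]
    congr 1
    refine Finset.prod_congr rfl (fun i hi => ?_)
    have hi' : s i ≠ 0 := Finsupp.mem_support_iff.mp hi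
    split_ifs
    · simp
    · simp [hi']
  rw [h]
  refine Submodule.sum_mem _ (fun s hs => Submodule.smul_mem _ _ ?_)
  have h1 := LowDeg.prod s.support (fun _ => 1)
    (fun i => (fun x : V → Bool => if x i = true then (1 : ℝ) else 0))
    (fun i _ => LowDeg.lit i true)
  refine LowDeg.of_le h1 ?_
  have h2 : ∑ _i ∈ s.support, 1 ≤ ∑ i ∈ s.support, s i := by
    refine Finset.sum_le_sum (fun i hi => ?_)
    exact Nat.one_le_iff_ne_zero.mpr (Finsupp.mem_support_iff.mp hi)
  exact h2.trans ((MvPolynomial.le_totalDegree hs).trans hp)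

/-- the formulas of the library -/
def Formula.conv {V : Type} : Formula V → Fml V
  | .bot => .const false
  | .var v => .var v
  | .neg f => .neg f.conv
  | .and f g => .and f.conv g.conv
  | .or f g => .or f.conv g.conv
  | .imp f g => .or (.neg f.conv) g.conv

lemma conv_size {V : Type} (f : Formula V) : f.conv.size = f.leaves := by
  induction f with
  | bot => rfl
  | var v => rfl
  | neg f ih => exact ih
  | and f g ih ih' => simp only [Formula.conv, Fml.size, Formula.leaves, ih, ih']
  | or f g ih ih' => simp only [Formula.conv, Fml.size, Formula.leaves, ih, ih']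
  | imp f g ih ih' => simp only [Formula.conv, Fml.size, Formula.leaves, ih, ih']

lemma conv_eval {V : Type} (f : Formula V) (x : V → Bool) : f.conv.eval x = f.eval x := by
  induction f with
  | bot => rfl
  | var v => rfl
  | neg f ih => simp only [Formula.conv, Fml.eval, Formula.eval, ih]
  | and f g ih ih' => simp only [Formula.conv, Fml.eval, Formula.eval, ih, ih']
  | or f g ih ih' => simp only [Formula.conv, Fml.eval, Formula.eval, ih, ih']
  | imp f g ih ih' => simp only [Formula.conv, Fml.eval, Formula.eval, ih, ih']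

lemma fml_lowDeg {V : Type} (φ : Fml V) :
    (fun y : V → Bool => if φ.eval y = true then (1 : ℝ) else 0) ∈ LowDeg V φ.size := by
  induction φ with
  | const b =>
    cases b
    · have := LowDeg.const (V := V) 0 0
      simpa [Fml.eval, Fml.size] using this
    · have := LowDeg.const (V := V) 0 1
      simpa [Fml.eval, Fml.size] using this
  | var v => exact LowDeg.lit v true
  | neg φ ih =>
    have h := Submodule.sub_mem _ (LowDeg.one φ.size) ih
    have h2 : (fun y : V → Bool => if (Fml.neg φ).eval y = true then (1 : ℝ) else 0) =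
        (1 : (V → Bool) → ℝ) - fun y => if φ.eval y = true then (1 : ℝ) else 0 := by
      funext y
      simp only [Fml.eval, Pi.sub_apply, Pi.one_apply]
      by_cases h1 : φ.eval y = true <;> simp [h1]
    rw [h2]; exact h
  | and φ ψ ih ih' =>
    have h := LowDeg.mul ih ih'
    have h2 : (fun y : V → Bool => if (Fml.and φ ψ).eval y = true then (1 : ℝ) else 0) =
        (fun y => if φ.eval y = true then (1 : ℝ) else 0) *
        fun y => if ψ.eval y = true then (1 : ℝ) else 0 := by
      funext y
      simp only [Fml.eval, Pi.mul_apply]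
      by_cases h1 : φ.eval y = true <;> by_cases h3 : ψ.eval y = true <;>
        simp [h1, h3]
    rw [h2]; exact h
  | or φ ψ ih ih' =>
    have h := Submodule.sub_mem _ (LowDeg.one (φ.size + ψ.size))
      (LowDeg.mul (Submodule.sub_mem _ (LowDeg.one φ.size) ih)
        (Submodule.sub_mem _ (LowDeg.one ψ.size) ih'))
    have h2 : (fun y : V → Bool => if (Fml.or φ ψ).eval y = true then (1 : ℝ) else 0) =
        (1 : (V → Bool) → ℝ) -
        ((1 : (V → Bool) → ℝ) - (fun y => if φ.eval y = true then (1 : ℝ) else 0)) *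
        ((1 : (V → Bool) → ℝ) - fun y => if ψ.eval y = true then (1 : ℝ) else 0) := by
      funext y
      simp only [Fml.eval, Pi.mul_apply, Pi.sub_apply, Pi.one_apply]
      by_cases h1 : φ.eval y = true <;> by_cases h3 : ψ.eval y = true <;>
        simp [h1, h3]
    rw [h2]; exact h

/-- the constant for formulas -/
noncomputable def cF : ℝ := 1 / (191 * 5000000 ^ 2)

/-- approximation of formulas with `cF w m²` leaves -/
theorem approx_formula {V : Type} (m w : ℕ) (hm : 1 ≤ m) (φ : Fml V)
    (hφ : (φ.size : ℝ) ≤ cF * w * m ^ 2) (j : ℕ) (hj : w < j) :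
    ∃ D : ℕ, 191 * D ≤ m * j ∧ ∃ P ∈ LowDeg V D,
      ∀ z, |P z - (if φ.eval z = true then 1 else 0)| ≤ (1 / 4) ^ j := by
  by_cases hm5 : m < 5000000
  · refine ⟨φ.size, ?_, _, fml_lowDeg φ, fun z => ?_⟩
    · have h1 : (191 * φ.size : ℝ) ≤ w := by
        have h2 : (m : ℝ) ^ 2 ≤ 5000000 ^ 2 := by
          apply pow_le_pow_left₀ (by positivity)
          exact_mod_cast hm5.le
        have h3 : (0 : ℝ) ≤ w := by positivity
        have h4 : cF * w * m ^ 2 ≤ cF * w * 5000000 ^ 2 := by
          apply mul_le_mul_of_nonneg_left h2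
          unfold cF
          positivity
        have h5 : cF * w * 5000000 ^ 2 = w / 191 := by
          unfold cF
          field_simp
        have h6 := hφ.trans h4
        rw [h5] at h6
        linarith
      have h2 : 191 * φ.size ≤ w := by exact_mod_cast h1
      have h3 : j ≤ m * j := Nat.le_mul_of_pos_left _ hm
      omega
    · simp
  · push Not at hm5
    set T : ℕ := m / 2440980 with hT
    have hT1 : 1 ≤ T := by
      rw [hT, Nat.le_div_iff_mul_le (by norm_num)]; omega
    have hTm : 2440980 * T ≤ m := Nat.mul_div_le m 2440980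
    have hTm2 : m ≤ 5000000 * T := by
      have : m < 2440980 * (T + 1) := Nat.lt_mul_div_succ m (by norm_num)
      omega
    obtain ⟨P, hP, hPz⟩ := formula_approx φ j T (by omega) hT1 (by
      have h2 : (φ.size : ℝ) ≤ (j * T ^ 2 : ℕ) := by
        refine hφ.trans ?_
        have h3 : (m : ℝ) ≤ 5000000 * T := by exact_mod_cast hTm2
        have h4 : (m : ℝ) ^ 2 ≤ (5000000 * T) ^ 2 := pow_le_pow_left₀ (by positivity) h3 2
        have h5 : (w : ℝ) ≤ j := by exact_mod_cast hj.le
        have h6 : (0 : ℝ) ≤ (w : ℝ) * T ^ 2 := by positivity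
        push_cast
        calc cF * (w : ℝ) * (m : ℝ) ^ 2 ≤ cF * (w : ℝ) * (5000000 * (T : ℝ)) ^ 2 := by
              apply mul_le_mul_of_nonneg_left h4
              unfold cF
              positivity
          _ = (w : ℝ) * (T : ℝ) ^ 2 / 191 := by
              unfold cF
              field_simp
          _ ≤ (w : ℝ) * (T : ℝ) ^ 2 := by linarith
          _ ≤ (j : ℝ) * (T : ℝ) ^ 2 := mul_le_mul_of_nonneg_right h5 (by positivity)
      exact_mod_cast h2)
    refine ⟨12780 * j * T, ?_, P, hP, hPz⟩
    calc 191 * (12780 * j * T) = (2440980 * T) * j := by ring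
      _ ≤ m * j := Nat.mul_le_mul_right _ hTm

/-- the constant -/
noncomputable def cL : ℝ := cF / 800

lemma cL_pos : 0 < cL := by
  unfold cL cF
  positivity

/-- the lower bound for lists of short lines -/
theorem lower {n m : ℕ} (hn : 1000 ≤ n) (hm : 1 ≤ m) (π : Equiv.Perm (Fin n))
    (hπ : ∀ U : Finset (Fin n), n ≤ 3 * U.card → 3 * U.card ≤ 2 * n →
      n / 60 < (bd (finRotate n) U).card ∨ n / 60 < (bd π U).card)
    (b : Fin n → ZMod 2) (k : ℕ) (l : List ((Vr n m → Bool) → Bool))
    (hl : Refutes (equations (eqSet m π) b) k l)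
    (hs : ∀ f ∈ l, (∃ s D : ℕ, (s : ℝ) ≤ cL * n / (k + 1) ∧ (D : ℝ) ≤ cL * m ∧
        Combination s D f) ∨
      (∃ φ : Formula (Vr n m), (φ.leaves : ℝ) ≤ cL * n * m ^ 2 / (k + 1) ∧ ∀ x, f x = φ.eval x)) :
    2 ^ ⌊cL * n / (k + 1)⌋₊ ≤ l.length := by
  obtain ⟨hl1, hl2⟩ := hl
  have hpos : 0 < l.length := by
    obtain ⟨f, hf, -⟩ := hl2
    exact List.length_pos_of_mem hf
  set w : ℕ := n / (400 * (k + 1)) with hw
  have hk0 : (0 : ℝ) < (k : ℝ) + 1 := by positivity
  have hcL1 : cL ≤ 1 / 649782 := by
    unfold cL cF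
    norm_num
  have hcL2 : cL ≤ 1 / 800 := by
    unfold cL cF
    norm_num
  rcases Nat.eq_zero_or_pos w with hw0 | hw0
  · -- too few lines are claimed
    have h1 : n < 400 * (k + 1) := by
      rw [hw] at hw0
      exact (Nat.div_eq_zero_iff_lt (by positivity)).mp hw0
    have h2 : cL * n / (k + 1) < 1 := by
      rw [div_lt_one hk0]
      have h3 : (n : ℝ) < 400 * (k + 1) := by exact_mod_cast h1
      have h4 : (0 : ℝ) ≤ n := by positivity
      calc cL * n ≤ 1 / 800 * n := mul_le_mul_of_nonneg_right hcL2 h4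
        _ < 1 / 800 * (400 * (k + 1)) := by linarith
        _ ≤ _ := by linarith
    have h3 : ⌊cL * n / (k + 1)⌋₊ = 0 := Nat.floor_eq_zero.mpr h2
    rw [h3, pow_zero]
    exact hpos
  · have hq : 400 * (k + 1) * w ≤ n := Nat.mul_div_le n _
    have hq2 : n < 400 * (k + 1) * (w + 1) := Nat.lt_mul_div_succ n (by positivity)
    have hwn : (n : ℝ) / (800 * (k + 1)) ≤ w := by
      rw [div_le_iff₀ (by positivity)]
      have h1 : n ≤ w * (800 * (k + 1)) := by
        have : 400 * (k + 1) * (w + 1) ≤ 400 * (k + 1) * (2 * w) := Nat.mul_le_mul_left _ (by omega)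
        calc n ≤ 400 * (k + 1) * (2 * w) := by omega
          _ = w * (800 * (k + 1)) := by ring
      exact_mod_cast h1
    have hfloor : ⌊cL * n / (k + 1)⌋₊ ≤ w := by
      apply Nat.floor_le_of_le
      refine le_trans ?_ hwn
      rw [div_le_div_iff₀ hk0 (by positivity)]
      have h4 : (0 : ℝ) ≤ n * (k + 1) := by positivity
      calc cL * n * (800 * (k + 1)) = cL * 800 * (n * (k + 1)) := by ring
        _ ≤ 1 * (n * (k + 1)) := mul_le_mul_of_nonneg_right (by linarith) h4
        _ = n * (k + 1) := one_mul _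
    refine (Nat.pow_le_pow_right (by norm_num) hfloor).trans ?_
    refine many_lines (k := k) (by omega) hm π hπ b ?_ l hl1 hl2 ?_
    · rw [Nat.le_div_iff_mul_le (by norm_num)]
      have : 400 * ((k + 1) * w) ≤ n := by
        calc 400 * ((k + 1) * w) = 400 * (k + 1) * w := by ring
          _ ≤ n := hq
      omega
    · intro f hf j hj
      rcases hs f hf with ⟨s, D, hs1, hD, g, hg, hfg⟩ | ⟨φ, hφ, hfφ⟩
      · refine approx_comb m w s D ?_ ?_ g ?_ f hfg j hj
        · have h1 : (s : ℝ) ≤ w := by
            refine hs1.trans (le_trans ?_ hwn)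
            rw [div_le_div_iff₀ hk0 (by positivity)]
            have h4 : (0 : ℝ) ≤ n * (k + 1) := by positivity
            calc cL * n * (800 * (k + 1)) = cL * 800 * (n * (k + 1)) := by ring
              _ ≤ 1 * (n * (k + 1)) := mul_le_mul_of_nonneg_right (by linarith) h4
              _ = n * (k + 1) := one_mul _
          exact_mod_cast h1
        · have h1 : (649782 * D : ℝ) ≤ m := by
            have h4 : (0 : ℝ) ≤ m := by positivity
            have h5 := mul_le_mul_of_nonneg_right hcL1 h4
            linarith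
          exact_mod_cast h1
        · intro i
          obtain ⟨p, hp, hpx⟩ := hg i
          exact ⟨_, mv_lowDeg p hp, hpx⟩
      · have h1 : ((φ.conv).size : ℝ) ≤ cF * w * m ^ 2 := by
          rw [conv_size]
          refine hφ.trans ?_
          calc cL * n * m ^ 2 / (k + 1) = cF * (n / (800 * (k + 1))) * m ^ 2 := by
                unfold cL
                field_simp
            _ ≤ cF * w * m ^ 2 := by
                apply mul_le_mul_of_nonneg_right _ (by positivity)
                apply mul_le_mul_of_nonneg_left hwn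
                unfold cF
                positivity
        obtain ⟨D, hD, P, hP, hPz⟩ := approx_formula m w hm φ.conv h1 j hj
        refine ⟨D, hD, P, hP, fun z => ?_⟩
        rw [hfφ z, ← conv_eval]
        exact hPz z

end Pool.Agent.L5helper55.FL
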