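import Pool.Agent.Helper600R2.Sharp.Restr
import Pool.Agent.Helper600R2.Lift

/-!
# One surviving variable per block, for functions with good polynomial approximations
-/

namespace Pool.Agent.L5helper55.FL

open Pool.Agent.H564R2.QF Pool.Agent.Helper600R2.Sharp Finset

/-- Let all functions `F i`, `i < M < 2 ^ d`, on the cube with blocks of size `m` be approximated
within `4 ^ (-j)` by polynomials of degree at most `m j / 191`, for all `j > d`. Then there is a
restriction leaving one variable of each block alive which turns all of them into functions of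
degree at most `d`. -/
theorem restr_gen {E : Type} [Fintype E] [DecidableEq E] (m d M : ℕ) (hm : 1 ≤ m)
    (F : Fin M → (E × Fin m → Bool) → Bool)
    (happ : ∀ i j, d < j → ∃ D : ℕ, 191 * D ≤ m * j ∧ ∃ P ∈ LowDeg (E × Fin m) D,
      ∀ z, |P z - (if F i z = true then 1 else 0)| ≤ (1 / 4) ^ j)
    (hM : (M : ℝ) < 2 ^ d) : ∃ (s : E → Fin m) (x : E × Fin m → Bool), ∀ i,
      (fun y : E → Bool => if F i (rs s x y) = true then (1 : ℝ) else 0) ∈ LowDeg E d := by
  classical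
  by_contra hcon
  push Not at hcon
  have hmr : (0 : ℝ) < m := by exact_mod_cast hm
  set N : ℝ := m ^ Fintype.card E * 2 ^ Fintype.card (E × Fin m) with hN
  have hNpos : 0 < N := by positivity
  have hcard : ∑ _s : E → Fin m, ∑ _x : E × Fin m → Bool, (1 : ℝ) = N := by
    simp [hN]
  let G : Fin M → (E × Fin m → Bool) → ℝ := fun i z => if F i z = true then 1 else 0
  have hG : ∀ i z, G i z = 0 ∨ G i z = 1 := by
    intro i z
    simp only [G]
    split_ifs <;> simp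
  have h1 : ∑ _s : E → Fin m, ∑ _x : E × Fin m → Bool, (1 : ℝ) ≤
      ∑ s : E → Fin m, ∑ x : E × Fin m → Bool, ∑ i : Fin M,
        ∑ j ∈ Finset.Ioc d (Fintype.card E), 4 ^ j * W j (fun y => G i (rs s x y)) := by
    refine Finset.sum_le_sum (fun s _ => Finset.sum_le_sum (fun x _ => ?_))
    obtain ⟨i, hi⟩ := hcon s x
    have h2 := bad_le (fun y => G i (rs s x y)) (fun y => hG i _) d hi
    refine h2.trans ?_
    exact Finset.single_le_sum (f := fun i => ∑ j ∈ Finset.Ioc d (Fintype.card E),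
      (4 : ℝ) ^ j * W j (fun y => G i (rs s x y)))
      (fun i _ => Finset.sum_nonneg (fun j _ => mul_nonneg (by positivity) (W_nonneg j _)))
      (mem_univ i)
  have h3 : ∑ s : E → Fin m, ∑ x : E × Fin m → Bool, ∑ i : Fin M,
        ∑ j ∈ Finset.Ioc d (Fintype.card E), 4 ^ j * W j (fun y => G i (rs s x y)) =
      ∑ i : Fin M, ∑ j ∈ Finset.Ioc d (Fintype.card E), ∑ s : E → Fin m,
        ∑ x : E × Fin m → Bool, 4 ^ j * W j (fun y => G i (rs s x y)) := by
    have h4 : ∀ s : E → Fin m, ∑ x : E × Fin m → Bool, ∑ i : Fin M,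
        ∑ j ∈ Finset.Ioc d (Fintype.card E), 4 ^ j * W j (fun y => G i (rs s x y)) =
        ∑ i : Fin M, ∑ j ∈ Finset.Ioc d (Fintype.card E), ∑ x : E × Fin m → Bool,
          4 ^ j * W j (fun y => G i (rs s x y)) := by
      intro s
      rw [Finset.sum_comm]
      refine Finset.sum_congr rfl (fun i _ => ?_)
      rw [Finset.sum_comm]
    simp only [h4]
    rw [Finset.sum_comm]
    refine Finset.sum_congr rfl (fun i _ => ?_)
    rw [Finset.sum_comm]
  have h5 : ∀ i : Fin M, ∑ j ∈ Finset.Ioc d (Fintype.card E), ∑ s : E → Fin m,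
        ∑ x : E × Fin m → Bool, 4 ^ j * W j (fun y => G i (rs s x y)) ≤ N * (1 / 4) ^ d := by
    intro i
    calc ∑ j ∈ Finset.Ioc d (Fintype.card E), ∑ s : E → Fin m,
        ∑ x : E × Fin m → Bool, 4 ^ j * W j (fun y => G i (rs s x y))
        ≤ ∑ j ∈ Finset.Ioc d (Fintype.card E), N * (3 * (1 / 4) ^ j) := by
          refine Finset.sum_le_sum (fun j hj => ?_)
          rw [Finset.mem_Ioc] at hj
          obtain ⟨D, hD, P, hP, hPf⟩ := happ i j hj.1
          exact total_weight (G i) P j D (by omega) hm (hG i) hP hPf hD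
      _ = N * ∑ j ∈ Finset.Ioc d (Fintype.card E), (3 * (1 / 4 : ℝ) ^ j) := by
          rw [Finset.mul_sum]
      _ ≤ N * (1 / 4) ^ d := mul_le_mul_of_nonneg_left (geom d _) hNpos.le
  have h6 : N ≤ M * (N * (1 / 4) ^ d) := by
    calc N = ∑ _s : E → Fin m, ∑ _x : E × Fin m → Bool, (1 : ℝ) := hcard.symm
      _ ≤ _ := h1
      _ = _ := h3
      _ ≤ ∑ _i : Fin M, N * (1 / 4) ^ d := Finset.sum_le_sum (fun i _ => h5 i)
      _ = M * (N * (1 / 4) ^ d) := by simp
  have h7 : (1 : ℝ) ≤ M * (1 / 4) ^ d := by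
    have : N * 1 ≤ N * (M * (1 / 4) ^ d) := by linarith
    exact le_of_mul_le_mul_left this hNpos
  have h8 : (M : ℝ) * (1 / 4) ^ d < 1 := by
    calc (M : ℝ) * (1 / 4) ^ d < 2 ^ d * (1 / 4) ^ d := by
          apply mul_lt_mul_of_pos_right hM (by positivity)
      _ = (1 / 2) ^ d := by rw [← mul_pow]; norm_num
      _ ≤ 1 := pow_le_one₀ (by norm_num) (by norm_num)
  linarith

/-- one step of amplification -/
lemma amp_step {V : Type} {d : ℕ} {p : (V → Bool) → ℝ} (hp : p ∈ LowDeg V d) :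
    (fun z => 3 * p z ^ 2 - 2 * p z ^ 3) ∈ LowDeg V (3 * d) := by
  have h2 := LowDeg.of_le (LowDeg.pow hp 2) (show 2 * d ≤ 3 * d by omega)
  have h3 := LowDeg.pow hp 3
  have h := Submodule.sub_mem _ (Submodule.smul_mem _ (3 : ℝ) h2)
    (Submodule.smul_mem _ (2 : ℝ) h3)
  exact h

lemma amp_fun {p : ℝ} (h0 : 0 ≤ p) (h1 : p ≤ 1) :
    0 ≤ 3 * p ^ 2 - 2 * p ^ 3 ∧ 3 * p ^ 2 - 2 * p ^ 3 ≤ 1 := by
  constructor
  · nlinarith [sq_nonneg p]
  · nlinarith [sq_nonneg (1 - p), mul_nonneg (sq_nonneg (1 - p)) h0]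

lemma amp_mono {p q : ℝ} (h0 : 0 ≤ p) (h : p ≤ q) (h1 : q ≤ 1) :
    3 * p ^ 2 - 2 * p ^ 3 ≤ 3 * q ^ 2 - 2 * q ^ 3 := by
  have h2 : 3 * q ^ 2 - 2 * q ^ 3 - (3 * p ^ 2 - 2 * p ^ 3) =
      (q - p) * (3 * p * (1 - p) + 3 * q * (1 - q) + (q - p) ^ 2) := by ring
  have h3 : 0 ≤ (q - p) * (3 * p * (1 - p) + 3 * q * (1 - q) + (q - p) ^ 2) := by
    apply mul_nonneg (by linarith)
    have := mul_nonneg h0 (show 0 ≤ 1 - p by linarith)
    have := mul_nonneg (show 0 ≤ q by linarith) (show 0 ≤ 1 - q by linarith)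
    nlinarith [sq_nonneg (q - p)]
  linarith

/-- amplification from error `t` to a smaller error -/
lemma amp_lemma {V : Type} {d : ℕ} {g : (V → Bool) → Bool} (t t' : ℝ) (ht1 : t ≤ 1)
    (htt : 3 * t ^ 2 - 2 * t ^ 3 ≤ t')
    (h : ∃ p ∈ LowDeg V d, ∀ z, 0 ≤ p z ∧ p z ≤ 1 ∧ (g z = true → 1 - t ≤ p z) ∧
      (g z = false → p z ≤ t)) :
    ∃ p ∈ LowDeg V (3 * d), ∀ z, 0 ≤ p z ∧ p z ≤ 1 ∧ (g z = true → 1 - t' ≤ p z) ∧
      (g z = false → p z ≤ t') := by
  obtain ⟨p, hp, hpz⟩ := h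
  refine ⟨_, amp_step hp, fun z => ?_⟩
  obtain ⟨h0, h1, h2, h3⟩ := hpz z
  refine ⟨(amp_fun h0 h1).1, (amp_fun h0 h1).2, fun hg => ?_, fun hg => ?_⟩
  · have := amp_mono (p := 1 - t) (q := p z) (by linarith) (h2 hg) h1
    have e : 3 * (1 - t) ^ 2 - 2 * (1 - t) ^ 3 = 1 - (3 * t ^ 2 - 2 * t ^ 3) := by ring
    linarith
  · have := amp_mono (p := p z) (q := t) h0 (h3 hg) ht1
    linarith

/-- bounded error amplification -/
lemma amp_all {V : Type} {d : ℕ} {g : (V → Bool) → Bool}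
    (h : ∃ p ∈ LowDeg V d, ∀ z, |p z - (if g z = true then 1 else 0)| ≤ 1 / 3) :
    ∃ p ∈ LowDeg V (243 * d), ∀ z, 0 ≤ p z ∧ p z ≤ 1 ∧ (g z = true → 15 / 16 ≤ p z) ∧
      (g z = false → p z ≤ 1 / 16) := by
  obtain ⟨p, hp, hpz⟩ := h
  have h0 : ∃ p ∈ LowDeg V d, ∀ z, 0 ≤ p z ∧ p z ≤ 1 ∧ (g z = true → 1 - (2 / 5 : ℝ) ≤ p z) ∧
      (g z = false → p z ≤ 2 / 5) := by
    refine ⟨(3 / 5 : ℝ) • (p + fun _ => 1 / 3), Submodule.smul_mem _ _
      (Submodule.add_mem _ hp (LowDeg.const d _)), fun z => ?_⟩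
    have h1 := abs_le.mp (hpz z)
    simp only [Pi.smul_apply, Pi.add_apply, smul_eq_mul]
    cases hg : g z
    · rw [hg] at h1
      simp only [Bool.false_eq_true, if_false] at h1
      refine ⟨by linarith, by linarith, by simp, fun _ => by linarith⟩
    · rw [hg] at h1
      simp only [if_true] at h1
      refine ⟨by linarith, by linarith, fun _ => by linarith, by simp⟩
  have h1 := amp_lemma (2 / 5) (9 / 25) (by norm_num) (by norm_num) h0
  have h2 := amp_lemma (9 / 25) (3 / 10) (by norm_num) (by norm_num) h1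
  have h3 := amp_lemma (3 / 10) (22 / 100) (by norm_num) (by norm_num) h2
  have h4 := amp_lemma (22 / 100) (13 / 100) (by norm_num) (by norm_num) h3
  have h5 := amp_lemma (13 / 100) (1 / 16) (by norm_num) (by norm_num) h4
  obtain ⟨q, hq, hqz⟩ := h5
  refine ⟨q, LowDeg.of_le hq (by omega), fun z => ?_⟩
  obtain ⟨a, b, c, e⟩ := hqz z
  refine ⟨a, b, fun hg => ?_, e⟩
  have := c hg
  linarith

/-- Boolean functions of at most `d` functions of approximate degree at most `m / 649782` have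
good approximations. -/
theorem approx_comb {V : Type} (m d N D : ℕ) (hN : N ≤ d) (hD : 649782 * D ≤ m)
    (g : Fin N → (V → Bool) → Bool)
    (hg : ∀ j, ∃ p ∈ LowDeg V D, ∀ z, |p z - (if g j z = true then 1 else 0)| ≤ 1 / 3)
    (G : (V → Bool) → Bool) (hG : ∀ z z', (∀ j, g j z = g j z') → G z = G z') (j : ℕ) (hj : d < j) :
    ∃ D : ℕ, 191 * D ≤ m * j ∧ ∃ P ∈ LowDeg V D,
      ∀ z, |P z - (if G z = true then 1 else 0)| ≤ (1 / 4) ^ j := by
  choose p hp1 hp2 using fun j => amp_all (hg j)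
  obtain ⟨P, hP1, hP2⟩ := robust N (243 * D) (13 * j) g p hp1
    (fun j z => ⟨(hp2 j z).1, (hp2 j z).2.1⟩) (fun j z => (hp2 j z).2.2.1)
    (fun j z => (hp2 j z).2.2.2) G hG
  refine ⟨(N + 13 * j) * (243 * D), ?_, P, hP1, fun z => (hP2 z).trans ?_⟩
  · calc 191 * ((N + 13 * j) * (243 * D)) ≤ 191 * ((j + 13 * j) * (243 * D)) := by
          gcongr
          omega
      _ = (649782 * D) * j := by ring
      _ ≤ m * j := Nat.mul_le_mul_right _ hD
  · have h1 : (12 : ℝ) ^ N ≤ 12 ^ j := pow_le_pow_right₀ (by norm_num) (by omega)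
    have h2 : (2 : ℝ) ≤ 2 ^ j := by
      calc (2 : ℝ) = 2 ^ 1 := by norm_num
        _ ≤ 2 ^ j := pow_le_pow_right₀ (by norm_num) (by omega)
    calc 2 * (12 : ℝ) ^ N * (2 / 3) ^ (13 * j)
        ≤ 2 ^ j * 12 ^ j * (2 / 3) ^ (13 * j) := by gcongr
      _ = (2 * 12 * (2 / 3) ^ 13) ^ j := by
        rw [mul_pow, mul_pow, pow_mul]
      _ ≤ (1 / 4) ^ j := by
        apply pow_le_pow_left₀ (by positivity)
        norm_num

end Pool.Agent.L5helper55.FL
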