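import Pool.Agent.L5helper55.FL.Lower

/-!
# Refutations with lines of size `O(n m²)`, and the elementary properties of the system
-/

namespace Pool.Agent.L5helper55.FL

open Finset Pool.Agent.Helper600R2

section parity

variable {V : Type}

/-- Boolean values as elements of `ZMod 2` -/
def toZ (b : Bool) : ZMod 2 := if b = true then 1 else 0

lemma toZ_xor (a b : Bool) : toZ ((a && !b) || (!a && b)) = toZ a + toZ b := by
  revert a b; decide

/-- parity of a list of at most `2 ^ j` variables -/
def parF : ℕ → List V → Formula V
  | 0, [] => .bot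
  | 0, u :: _ => .var u
  | j + 1, l => .or (.and (parF j (l.take (2 ^ j))) (.neg (parF j (l.drop (2 ^ j)))))
      (.and (.neg (parF j (l.take (2 ^ j)))) (parF j (l.drop (2 ^ j))))

lemma parF_leaves (j : ℕ) : ∀ l : List V, (parF j l).leaves ≤ 4 ^ j := by
  induction j with
  | zero =>
    intro l
    cases l <;> simp [parF, Formula.leaves]
  | succ j ih =>
    intro l
    have h1 := ih (l.take (2 ^ j))
    have h2 := ih (l.drop (2 ^ j))
    simp only [parF, Formula.leaves, pow_succ]
    omega

lemma parF_eval (x : V → Bool) (j : ℕ) : ∀ l : List V, l.length ≤ 2 ^ j →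
    toZ ((parF j l).eval x) = (l.map (fun u => if x u = true then (1 : ZMod 2) else 0)).sum := by
  induction j with
  | zero =>
    intro l hl
    match l, hl with
    | [], _ => simp [parF, Formula.eval, toZ]
    | [u], _ => simp [parF, Formula.eval, toZ]
    | _ :: _ :: _, hl => simp at hl
  | succ j ih =>
    intro l hl
    have h1 := ih (l.take (2 ^ j)) (by simp)
    have h2 := ih (l.drop (2 ^ j)) (by
      rw [List.length_drop]
      rw [pow_succ] at hl
      omega)
    simp only [parF, Formula.eval]
    rw [toZ_xor, h1, h2, ← List.sum_append, ← List.map_append, List.take_append_drop]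

/-- a formula with `64 m²` leaves for an equation with at most `4 m` variables -/
lemma exists_eqF (m : ℕ) (hm : 1 ≤ m) (A : Finset V) (hA : A.card ≤ 4 * m) (b : ZMod 2) :
    ∃ E : Formula V, E.leaves ≤ 64 * m ^ 2 ∧ ∀ x, E.eval x = true ↔ par A x = b := by
  classical
  set j := Nat.clog 2 (4 * m) with hj
  have h1 : 4 * m ≤ 2 ^ j := Nat.le_pow_clog (by norm_num) _
  have h2 : 2 ^ j < 8 * m := by
    have h3 : 2 ^ (j - 1) < 4 * m := Nat.pow_pred_clog_lt_self (by norm_num) (by omega)
    have h4 : 2 ^ j ≤ 2 * 2 ^ (j - 1) := by
      rw [← pow_succ']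
      exact Nat.pow_le_pow_right (by norm_num) (by omega)
    omega
  have h4 : 4 ^ j ≤ 64 * m ^ 2 := by
    have : (4 : ℕ) ^ j = 2 ^ j * 2 ^ j := by
      rw [← mul_pow]
      norm_num
    rw [this]
    calc 2 ^ j * 2 ^ j ≤ (8 * m) * (8 * m) := Nat.mul_le_mul h2.le h2.le
      _ = 64 * m ^ 2 := by ring
  have hlen : A.toList.length ≤ 2 ^ j := by
    rw [Finset.length_toList]; omega
  have hev : ∀ x, toZ ((parF j A.toList).eval x) = par A x := by
    intro x
    rw [parF_eval x j _ hlen, par, Finset.sum_map_toList]
  have hb : b = 1 ∨ b = 0 := by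
    revert b; decide
  rcases hb with rfl | rfl
  · refine ⟨parF j A.toList, (parF_leaves j _).trans h4, fun x => ?_⟩
    rw [← hev]
    cases (parF j A.toList).eval x <;> simp [toZ]
  · refine ⟨.neg (parF j A.toList), (parF_leaves j _).trans h4, fun x => ?_⟩
    rw [← hev]
    simp only [Formula.eval]
    cases (parF j A.toList).eval x <;> simp [toZ]

end parity

section build

variable {V : Type} [DecidableEq V]

/-- agreement with `α` on the list `S` -/
def agF (α : V → Bool) : List V → Formula V
  | [] => .neg .bot
  | u :: S => .and (if α u = true then .var u else .neg (.var u)) (agF α S)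

omit [DecidableEq V] in
lemma agF_leaves (α : V → Bool) (S : List V) : (agF α S).leaves = S.length := by
  induction S with
  | nil => rfl
  | cons u S ih =>
    simp only [agF, Formula.leaves, ih, List.length_cons]
    split_ifs <;> simp [Formula.leaves] <;> omega

omit [DecidableEq V] in
lemma agF_eval (α : V → Bool) (S : List V) (x : V → Bool) :
    (agF α S).eval x = true ↔ ∀ u ∈ S, x u = α u := by
  induction S with
  | nil => simp [agF, Formula.eval]
  | cons u S ih =>
    simp only [agF, Formula.eval, Bool.and_eq_true, ih, List.mem_cons, forall_eq_or_imp]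
    refine and_congr ?_ Iff.rfl
    cases h : α u <;> simp [Formula.eval]

/-- the function of a formula -/
abbrev fn (φ : Formula V) : (V → Bool) → Bool := fun x => φ.eval x

/-- decision tree derivation -/
lemma branch (Ax : Set ((V → Bool) → Prop)) (E : Formula V) (T : Finset V) (B : ℕ)
    (H : ∀ α : V → Bool, (∀ x, (∀ u ∈ T, x u = α u) → E.eval x = true) ∨
      ∃ a ∈ Ax, ∀ x, a x → ∃ u ∈ T, x u ≠ α u) (us : List V) :
    ∀ (S : List V) (α : V → Bool) (l₀ : List (Formula V)), Derivation Ax 2 (l₀.map fn) →
      (∀ u ∈ T, u ∈ us ∨ u ∈ S) → (∀ u ∈ S, u ∈ T) → (∀ u ∈ us, u ∈ T) →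
      S.length + us.length ≤ B →
      ∃ l' : List (Formula V), Derivation Ax 2 ((l' ++ l₀).map fn) ∧
        Formula.imp (agF α S) E ∈ l' ∧ l'.length + 1 ≤ 2 ^ (us.length + 1) ∧
        ∀ φ ∈ l', φ.leaves ≤ B + E.leaves := by
  induction us with
  | nil =>
    intro S α l₀ hl hT hS hus hB
    refine ⟨[Formula.imp (agF α S) E], ?_, by simp, by simp, ?_⟩
    · rcases H α with h | ⟨a, ha, h⟩
      · refine Derivation.rule [] (by simp) (by simp) ?_ hl
        intro x _
        simp only [fn, Formula.eval, Bool.or_eq_true, Bool.not_eq_true']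
        by_cases hx : (agF α S).eval x = true
        · right
          apply h
          intro u hu
          rw [agF_eval] at hx
          exact hx u ((hT u hu).resolve_left (by simp))
        · left
          simpa using hx
      · refine Derivation.ax a ha ?_ hl
        intro x hax
        simp only [fn, Formula.eval, Bool.or_eq_true, Bool.not_eq_true']
        left
        by_contra hx
        have hx' : (agF α S).eval x = true := by simpa using hx
        rw [agF_eval] at hx'
        obtain ⟨u, hu, hne⟩ := h x hax
        exact hne (hx' u ((hT u hu).resolve_left (by simp)))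
    · intro φ hφ
      rw [List.mem_singleton] at hφ
      subst hφ
      simp only [Formula.leaves, agF_leaves]
      simp only [List.length_nil] at hB
      omega
  | cons u us ih =>
    intro S α l₀ hl hT hS hus hB
    have hstep : ∀ c : Bool, ∀ l₁ : List (Formula V), Derivation Ax 2 (l₁.map fn) →
        ∃ l' : List (Formula V), Derivation Ax 2 ((l' ++ l₁).map fn) ∧
        Formula.imp (agF (Function.update α u c) (u :: S)) E ∈ l' ∧
        l'.length + 1 ≤ 2 ^ (us.length + 1) ∧ ∀ φ ∈ l', φ.leaves ≤ B + E.leaves := by
      intro c l₁ hl₁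
      refine ih (u :: S) (Function.update α u c) l₁ hl₁ ?_ ?_ ?_ ?_
      · intro w hw
        rcases hT w hw with h | h
        · rcases List.mem_cons.mp h with rfl | h
          · exact Or.inr List.mem_cons_self
          · exact Or.inl h
        · exact Or.inr (List.mem_cons_of_mem _ h)
      · intro w hw
        rcases List.mem_cons.mp hw with rfl | h
        · exact hus _ List.mem_cons_self
        · exact hS w h
      · intro w hw
        exact hus w (List.mem_cons_of_mem _ hw)
      · simp only [List.length_cons] at hB ⊢
        omega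
    obtain ⟨l₁, h11, h12, h13, h14⟩ := hstep false l₀ hl
    obtain ⟨l₂, h21, h22, h23, h24⟩ := hstep true (l₁ ++ l₀) h11
    refine ⟨Formula.imp (agF α S) E :: (l₂ ++ l₁), ?_, List.mem_cons_self, ?_, ?_⟩
    · have hd : Derivation Ax 2 (((l₂ ++ l₁) ++ l₀).map fn) := by
        rw [List.append_assoc]; exact h21
      refine Derivation.rule
        [fn (Formula.imp (agF (Function.update α u false) (u :: S)) E),
          fn (Formula.imp (agF (Function.update α u true) (u :: S)) E)] (by simp) ?_ ?_ hd
      · intro g hg
        rw [List.mem_cons, List.mem_singleton] at hg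
        rcases hg with rfl | rfl
        · exact List.mem_map.mpr ⟨_, by simp [h12], rfl⟩
        · exact List.mem_map.mpr ⟨_, by simp [h22], rfl⟩
      · intro x hx
        have hx' : ∀ c : Bool,
            (Formula.imp (agF (Function.update α u c) (u :: S)) E).eval x = true := by
          intro c
          cases c
          · exact hx _ (by simp)
          · exact hx _ (by simp)
        have h := hx' (x u)
        simp only [fn, Formula.eval, Bool.or_eq_true, Bool.not_eq_true'] at h ⊢
        rcases h with h | h
        · left
          by_contra hcon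
          have hcon' : (agF α S).eval x = true := by simpa using hcon
          rw [agF_eval] at hcon'
          have : (agF (Function.update α u (x u)) (u :: S)).eval x = true := by
            rw [agF_eval]
            intro w hw
            by_cases hwu : w = u
            · subst hwu; simp
            · rw [Function.update_of_ne hwu]
              exact hcon' w ((List.mem_cons.mp hw).resolve_left hwu)
          rw [this] at h
          exact absurd h (by simp)
        · exact Or.inr h
    · simp only [List.length_cons, List.length_append]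
      have : 2 ^ (us.length + 1 + 1) = 2 * 2 ^ (us.length + 1) := by rw [pow_succ']
      omega
    · intro φ hφ
      rcases List.mem_cons.mp hφ with rfl | hφ
      · simp only [Formula.leaves, agF_leaves]
        omega
      · rcases List.mem_append.mp hφ with h | h
        · exact h24 φ h
        · exact h14 φ h

/-- the conjunction of some equations can be derived -/
lemma conj {n : ℕ} (m : ℕ) (hm : 1 ≤ m) (A : Fin n → Finset V) (hA : ∀ v, (A v).card ≤ 4 * m)
    (b : Fin n → ZMod 2) (vs : List (Fin n)) :
    ∃ (l : List (Formula V)) (φ : Formula V), Derivation (clauses (cnf A b)) 2 (l.map fn) ∧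
      φ ∈ l ∧ (∀ x, φ.eval x = true ↔ ∀ v ∈ vs, par (A v) x = b v) ∧
      φ.leaves ≤ vs.length * (64 * m ^ 2) ∧ l.length ≤ vs.length * 2 ^ (4 * m + 1) + 1 ∧
      ∀ ψ ∈ l, ψ.leaves ≤ vs.length * (64 * m ^ 2) + 4 * m + 64 * m ^ 2 := by
  induction vs with
  | nil =>
    refine ⟨[.neg .bot], .neg .bot, ?_, by simp, ?_, ?_, by simp, ?_⟩
    · exact Derivation.rule [] (by simp) (by simp) (by simp [Formula.eval]) Derivation.nil
    · simp [Formula.eval]
    · simp [Formula.leaves]
    · simp [Formula.leaves]
  | cons v vs ih =>
    obtain ⟨l, φ, h1, h2, h3, h4, h5, h6⟩ := ih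
    obtain ⟨E, hE1, hE2⟩ := exists_eqF m hm (A v) (hA v) (b v)
    obtain ⟨l', g1, g2, g3, g4⟩ := branch (clauses (cnf A b)) E (A v) (4 * m) (by
      intro α
      by_cases hα : par (A v) α = b v
      · left
        intro x hx
        rw [hE2, ← hα]
        refine Finset.sum_congr rfl (fun u hu => ?_)
        rw [hx u hu]
      · right
        refine ⟨_, ⟨_, ⟨v, α, hα, rfl⟩, rfl⟩, ?_⟩
        intro x hx
        obtain ⟨p, hp, hpx⟩ := hx
        obtain ⟨u, hu, rfl⟩ := Finset.mem_image.mp hp
        refine ⟨u, hu, ?_⟩
        simp only at hpx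
        rw [hpx]
        simp) (A v).toList [] (fun _ => false) l h1 (by
          intro u hu
          exact Or.inl (Finset.mem_toList.mpr hu)) (by simp) (by
          intro u hu
          exact Finset.mem_toList.mp hu) (by
          rw [Finset.length_toList]
          simpa using hA v)
    refine ⟨.and φ E :: (l' ++ l), .and φ E, ?_, List.mem_cons_self, ?_, ?_, ?_, ?_⟩
    · refine Derivation.rule [fn φ, fn (Formula.imp (agF (fun _ => false) []) E)] (by simp)
        ?_ ?_ g1
      · intro g hg
        rw [List.mem_cons, List.mem_singleton] at hg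
        rcases hg with rfl | rfl
        · exact List.mem_map.mpr ⟨_, by simp [h2], rfl⟩
        · exact List.mem_map.mpr ⟨_, by simp [g2], rfl⟩
      · intro x hx
        have a1 := hx _ (List.mem_cons_self)
        have a2 := hx (fn (Formula.imp (agF (fun _ => false) []) E)) (by simp)
        simp only [fn, agF, Formula.eval, Bool.not_false, Bool.not_true, Bool.false_or] at a1 a2
        simp only [fn, Formula.eval, a1, a2, Bool.and_self]
    · intro x
      simp only [Formula.eval, Bool.and_eq_true, h3, hE2, List.mem_cons, forall_eq_or_imp]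
      exact and_comm
    · simp only [Formula.leaves, List.length_cons]
      linarith [h4, hE1]
    · simp only [List.length_cons, List.length_append]
      have h7 : 2 ^ ((A v).toList.length + 1) ≤ 2 ^ (4 * m + 1) := by
        apply Nat.pow_le_pow_right (by norm_num)
        rw [Finset.length_toList]
        have := hA v
        omega
      rw [add_mul, one_mul]
      omega
    · intro ψ hψ
      rcases List.mem_cons.mp hψ with rfl | hψ
      · simp only [Formula.leaves, List.length_cons]
        have : (vs.length + 1) * (64 * m ^ 2) = vs.length * (64 * m ^ 2) + 64 * m ^ 2 := by ring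
        omega
      · rcases List.mem_append.mp hψ with h | h
        · have := g4 ψ h
          simp only [List.length_cons]
          have e : (vs.length + 1) * (64 * m ^ 2) = vs.length * (64 * m ^ 2) + 64 * m ^ 2 := by ring
          omega
        · have := h6 ψ h
          simp only [List.length_cons]
          have e : (vs.length + 1) * (64 * m ^ 2) = vs.length * (64 * m ^ 2) + 64 * m ^ 2 := by ring
          omega

/-- the number of clauses -/
lemma cnf_card {n : ℕ} (m : ℕ) (A : Fin n → Finset V) (hA : ∀ v, (A v).card ≤ 4 * m)
    (b : Fin n → ZMod 2) : (cnf A b).ncard ≤ n * 2 ^ (4 * m) := by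
  classical
  let F : Finset (Finset (V × Bool)) := univ.biUnion (fun v : Fin n =>
    (A v).powerset.image (fun B => (A v).image (fun u => (u, !(decide (u ∈ B))))))
  have hsub : cnf A b ⊆ (F : Set (Finset (V × Bool))) := by
    rintro K ⟨v, α, -, rfl⟩
    simp only [F, coe_biUnion, Set.mem_iUnion, coe_univ, Set.mem_univ]
    refine ⟨v, trivial, ?_⟩
    rw [Finset.mem_coe, Finset.mem_image]
    refine ⟨(A v).filter (fun u => α u = true), by simp, ?_⟩
    refine Finset.image_congr ?_
    intro u hu
    have hu' : u ∈ A v := hu
    simp [hu']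
  calc (cnf A b).ncard ≤ (F : Set (Finset (V × Bool))).ncard :=
        Set.ncard_le_ncard hsub (Finset.finite_toSet F)
    _ = F.card := Set.ncard_coe_finset F
    _ ≤ ∑ v : Fin n, ((A v).powerset.image
          (fun B => (A v).image (fun u => (u, !(decide (u ∈ B)))))).card := card_biUnion_le
    _ ≤ ∑ _v : Fin n, 2 ^ (4 * m) := by
        refine Finset.sum_le_sum (fun v _ => ?_)
        refine card_image_le.trans ?_
        rw [card_powerset]
        exact Nat.pow_le_pow_right (by norm_num) (hA v)
    _ = n * 2 ^ (4 * m) := by simp

end build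

section system

variable {n m : ℕ} (π : Equiv.Perm (Fin n))

lemma eqSet_card (v : Fin n) : (eqSet m π v).card ≤ 4 * m := by
  classical
  have h : eqSet m π v = (nsupp (dd (ghd π) gtl (Pi.single v (1 : ZMod 2)))) ×ˢ
      (univ : Finset (Fin m)) := by
    ext u
    simp [eqSet, nsupp]
  rw [h, card_product, card_univ, Fintype.card_fin]
  exact Nat.mul_le_mul_right _ (graph_deg π v 1)

lemma eqSet_two (u : Vr n m) : (univ.filter (fun v => u ∈ eqSet m π v)).card ≤ 2 := by
  classical
  refine le_trans (card_le_card (t := {ghd π u.1, gtl u.1}) ?_) card_le_two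
  intro v hv
  have hv := (mem_filter.mp (mem_filter.mp hv).2).2
  simp only [dd] at hv
  simp only [mem_insert, mem_singleton]
  by_contra hcon
  push Not at hcon
  apply hv
  rw [Pi.single_eq_of_ne hcon.1.symm, Pi.single_eq_of_ne hcon.2.symm, sub_zero]

lemma par_eq (v : Fin n) (x : Vr n m → Bool) : par (eqSet m π v) x =
    ∑ u : Vr n m, dd (ghd π) gtl (Pi.single v (1 : ZMod 2)) u.1 *
      (if x u = true then (1 : ZMod 2) else 0) := by
  rw [par, eqSet, Finset.sum_filter]
  refine Finset.sum_congr rfl (fun u _ => ?_)
  by_cases hc : dd (ghd π) gtl (Pi.single v (1 : ZMod 2)) u.1 = 0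
  · rw [hc]; simp
  · rw [zmod2_ne hc]; simp

lemma unsat (hn : 0 < n) (x : Vr n m → Bool) :
    ∃ v, par (eqSet m π v) x ≠ (if v = ⟨0, hn⟩ then 1 else 0) := by
  classical
  by_contra hcon
  push Not at hcon
  have h1 : ∑ v, par (eqSet m π v) x = 1 := by
    simp only [hcon]
    simp
  have h2 : ∑ v, par (eqSet m π v) x = 0 := by
    simp only [par_eq]
    rw [Finset.sum_comm]
    refine Finset.sum_eq_zero (fun u _ => ?_)
    rw [← Finset.sum_mul]
    have h3 : ∑ v : Fin n, dd (ghd π) gtl (Pi.single v (1 : ZMod 2)) u.1 = 0 := by
      simp only [dd, Finset.sum_sub_distrib]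
      simp [Pi.single_apply]
    rw [h3, zero_mul]
  rw [h1] at h2
  exact one_ne_zero h2

end system

end Pool.Agent.L5helper55.FL
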